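import Pool.Agent.Helper76.EX.Defs

/-!
# Package K12 (kernel): transform and tail of `Gk`
-/

set_option autoImplicit false

namespace Pool.Agent.Helper76.EX

open Complex Filter Topology Set MeasureTheory
open scoped ComplexConjugate
open Pool.Agent.Helper242.KK (Ph PhC)
open Pool.Agent.Helper242

theorem k1_mem {t : ℂ} (ht : |t.im| < Real.pi / 4) : t / 2 ∈ RK.S := by
  simp only [RK.S, Set.mem_ofPred_eq]
  have e : (t / 2).im = t.im / 2 := by simp
  rw [e, abs_div, abs_of_pos (by norm_num : (0 : ℝ) < 2)]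
  linarith

theorem k1_diff {t : ℂ} (ht : |t.im| < Real.pi / 4) : DifferentiableAt ℂ PhC t := by
  have h1 := RK.differentiableAt_PhiC (k1_mem ht)
  have h2 : DifferentiableAt ℂ (fun t : ℂ => RK.PhiC (t / 2)) t :=
    DifferentiableAt.comp (f := fun t : ℂ => t / 2) (g := RK.PhiC) t h1
      (differentiableAt_id.div_const 2)
  exact h2.const_mul 2

theorem k1_even {t : ℂ} (ht : |t.im| < Real.pi / 4) : PhC (-t) = PhC t := by
  unfold KK.PhC
  rw [show -t / 2 = -(t / 2) by ring, RK.PhiC_even (k1_mem ht)]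

theorem k1_bound {y0 : ℝ} (h0 : 0 ≤ y0) (h1 : y0 < Real.pi / 4) : ∃ A : ℝ, 0 < A ∧
    ∀ t : ℂ, |t.im| ≤ y0 →
      ‖PhC t‖ ≤ A * Real.exp (5 * |t.re| - Real.pi * Real.cos (2 * y0) * Real.exp (2 * |t.re|)) := by
  obtain ⟨A, hA, h⟩ := RK.PhiC_bound (Y := y0 / 2) (by linarith) (by linarith)
  refine ⟨2 * A, by positivity, fun t ht => ?_⟩
  have e1 : (t / 2).im = t.im / 2 := by simp
  have e2 : (t / 2).re = t.re / 2 := by simp
  have h2 := h (t / 2) (by rw [e1, abs_div, abs_of_pos (by norm_num : (0 : ℝ) < 2)]; linarith)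
  rw [e2, abs_div, abs_of_pos (by norm_num : (0 : ℝ) < 2)] at h2
  unfold KK.PhC
  rw [norm_mul]
  simp only [norm_ofNat]
  have h3 : A * Real.exp (9 * (|t.re| / 2) - Real.pi * Real.cos (4 * (y0 / 2)) *
      Real.exp (4 * (|t.re| / 2))) ≤
      A * Real.exp (5 * |t.re| - Real.pi * Real.cos (2 * y0) * Real.exp (2 * |t.re|)) := by
    refine mul_le_mul_of_nonneg_left (Real.exp_le_exp.2 ?_) hA.le
    rw [show 4 * (|t.re| / 2) = 2 * |t.re| by ring, show 4 * (y0 / 2) = 2 * y0 by ring]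
    have := abs_nonneg t.re
    linarith
  calc 2 * ‖RK.PhiC (t / 2)‖ ≤ 2 * (A * Real.exp (5 * |t.re| -
        Real.pi * Real.cos (2 * y0) * Real.exp (2 * |t.re|))) := by
        gcongr; exact h2.trans h3
    _ = _ := by ring

theorem k1_gauss (K : ℝ) {κ : ℝ} (hκ : 0 < κ) : ∃ C : ℝ, ∀ u : ℝ, 0 ≤ u →
    K * u - κ * Real.exp (2 * u) ≤ C - u ^ 2 := by
  set D : ℝ := |K| + 1 with hD
  have hDpos : 0 < D := by positivity
  set κ' : ℝ := 4 * κ / 3 with hκ'
  have hκ'pos : 0 < κ' := by positivity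
  set T : ℝ := 2 * D / κ' with hT
  have hTpos : 0 < T := by positivity
  refine ⟨D + 2 * D * T ^ 2, fun u hu => ?_⟩
  have h1 : (2 * u) ^ 3 / (Nat.factorial 3 : ℝ) ≤ Real.exp (2 * u) :=
    Real.pow_div_factorial_le_exp (2 * u) (by linarith) 3
  have h2 : κ' * u ^ 3 ≤ κ * Real.exp (2 * u) := by
    have h3 : (2 * u) ^ 3 / (Nat.factorial 3 : ℝ) = 4 / 3 * u ^ 3 := by
      norm_num [Nat.factorial]
      ring
    rw [h3] at h1
    calc κ' * u ^ 3 = κ * (4 / 3 * u ^ 3) := by rw [hκ']; ring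
      _ ≤ κ * Real.exp (2 * u) := by gcongr
  have h4 : K * u + u ^ 2 ≤ D * (1 + 2 * u ^ 2) := by
    have h5 : K * u ≤ |K| * u := mul_le_mul_of_nonneg_right (le_abs_self K) hu
    have h6 : u ≤ 1 + u ^ 2 := by nlinarith [sq_nonneg (u - 1)]
    have h7 : |K| * u ≤ |K| * (1 + u ^ 2) := mul_le_mul_of_nonneg_left h6 (abs_nonneg K)
    have h8 := mul_nonneg (abs_nonneg K) (sq_nonneg u)
    rw [hD]
    nlinarith [sq_nonneg u]
  have h9 : 2 * D * u ^ 2 ≤ 2 * D * T ^ 2 + κ' * u ^ 3 := by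
    rcases le_total u T with h | h
    · have : u ^ 2 ≤ T ^ 2 := by gcongr
      have h10 : 0 ≤ κ' * u ^ 3 := by positivity
      nlinarith
    · have h11 : 2 * D = κ' * T := by rw [hT]; field_simp
      have h12 : κ' * T * u ^ 2 ≤ κ' * u * u ^ 2 := by gcongr
      have h13 : 0 ≤ 2 * D * T ^ 2 := by positivity
      calc 2 * D * u ^ 2 = κ' * T * u ^ 2 := by rw [h11]
        _ ≤ κ' * u * u ^ 2 := h12
        _ = κ' * u ^ 3 := by ring
        _ ≤ _ := by linarith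
  nlinarith

/-- projection to `[-θ0, θ0]` -/
noncomputable def k1cl (θ0 θ : ℝ) : ℝ := max (-θ0) (min θ0 θ)

theorem k1cl_cont (θ0 : ℝ) : Continuous (k1cl θ0) := by
  unfold k1cl
  fun_prop

theorem k1cl_abs {θ0 : ℝ} (h0 : 0 < θ0) (θ : ℝ) : |k1cl θ0 θ| ≤ θ0 := by
  unfold k1cl
  rw [abs_le]
  constructor
  · exact le_max_left _ _
  · exact max_le (by linarith) (min_le_left _ _)

theorem k1cl_eq {θ0 θ : ℝ} (h : θ ∈ Set.uIcc (-θ0) θ0) (h0 : 0 < θ0) : k1cl θ0 θ = θ := by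
  rw [Set.uIcc_of_le (by linarith)] at h
  unfold k1cl
  rw [min_eq_right h.2, max_eq_right h.1]

/-- the integrand -/
noncomputable def k1F (Y θ0 x θ : ℝ) : ℂ :=
  (wk Y (k1cl θ0 θ) : ℂ) * PhC ((x : ℂ) + (k1cl θ0 θ / 2 : ℝ) * I)

theorem k1_im (x θ : ℝ) : ((x : ℂ) + (θ / 2 : ℝ) * I).im = θ / 2 := by
  simp [-ofReal_div]

theorem k1_re (x θ : ℝ) : ((x : ℂ) + (θ / 2 : ℝ) * I).re = x := by
  simp [-ofReal_div]

theorem k1F_cont (Y : ℝ) {θ0 : ℝ} (h0 : 0 < θ0) (h1 : θ0 < Real.pi / 2) :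
    Continuous (Function.uncurry (k1F Y θ0)) := by
  have hc := k1cl_cont θ0
  have h2 : Continuous (fun p : ℝ × ℝ => PhC ((p.1 : ℂ) + (k1cl θ0 p.2 / 2 : ℝ) * I)) := by
    rw [continuous_iff_continuousAt]
    intro p
    have h3 : ContinuousAt PhC ((p.1 : ℂ) + (k1cl θ0 p.2 / 2 : ℝ) * I) := by
      apply (k1_diff _).continuousAt
      rw [k1_im, abs_div, abs_of_pos (by norm_num : (0 : ℝ) < 2)]
      have := k1cl_abs h0 p.2
      linarith
    have h4 : Continuous (fun p : ℝ × ℝ => (p.1 : ℂ) + (k1cl θ0 p.2 / 2 : ℝ) * I) := by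
      fun_prop
    exact ContinuousAt.comp (g := PhC)
      (f := fun p : ℝ × ℝ => (p.1 : ℂ) + (k1cl θ0 p.2 / 2 : ℝ) * I) h3 h4.continuousAt
  have h5 : Continuous (fun p : ℝ × ℝ => (wk Y (k1cl θ0 p.2) : ℂ)) := by
    unfold wk
    fun_prop
  exact h5.mul h2

theorem k1F_bound (Y : ℝ) {θ0 : ℝ} (h0 : 0 < θ0) (h1 : θ0 < Real.pi / 2) : ∃ B : ℝ, 0 < B ∧
    ∀ x θ : ℝ, ‖k1F Y θ0 x θ‖ ≤
      B * Real.exp (5 * |x| - Real.pi * Real.cos θ0 * Real.exp (2 * |x|)) := by
  obtain ⟨A, hA, h⟩ := k1_bound (y0 := θ0 / 2) (by linarith) (by linarith)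
  refine ⟨Real.exp (2 * Real.pi * |Y|) * A, by positivity, fun x θ => ?_⟩
  have h2 := h ((x : ℂ) + (k1cl θ0 θ / 2 : ℝ) * I) (by
    rw [k1_im, abs_div, abs_of_pos (by norm_num : (0 : ℝ) < 2)]
    have := k1cl_abs h0 θ
    linarith)
  rw [k1_re, show 2 * (θ0 / 2) = θ0 by ring] at h2
  unfold k1F
  rw [norm_mul, norm_real, Real.norm_eq_abs]
  have h3 : |wk Y (k1cl θ0 θ)| ≤ Real.exp (2 * Real.pi * |Y|) := by
    unfold wk
    rw [abs_of_pos (Real.exp_pos _)]
    apply Real.exp_le_exp.2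
    have h4 : Y * Real.cos (k1cl θ0 θ) ≤ |Y| := by
      calc Y * Real.cos (k1cl θ0 θ) ≤ |Y * Real.cos (k1cl θ0 θ)| := le_abs_self _
        _ = |Y| * |Real.cos (k1cl θ0 θ)| := abs_mul _ _
        _ ≤ |Y| * 1 := by gcongr; exact Real.abs_cos_le_one _
        _ = |Y| := mul_one _
    calc 2 * Real.pi * Y * Real.cos (k1cl θ0 θ) = 2 * Real.pi * (Y * Real.cos (k1cl θ0 θ)) := by ring
      _ ≤ 2 * Real.pi * |Y| := by gcongr
  calc |wk Y (k1cl θ0 θ)| * ‖PhC ((x : ℂ) + (k1cl θ0 θ / 2 : ℝ) * I)‖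
      ≤ Real.exp (2 * Real.pi * |Y|) *
        (A * Real.exp (5 * |x| - Real.pi * Real.cos θ0 * Real.exp (2 * |x|))) := by
        gcongr
    _ = _ := by ring

theorem k1_Gk_eq (Y : ℝ) {θ0 : ℝ} (h0 : 0 < θ0) (x : ℝ) :
    Gk Y θ0 x = ∫ θ in (-θ0)..θ0, k1F Y θ0 x θ := by
  unfold Gk k1F
  refine intervalIntegral.integral_congr fun θ hθ => ?_
  simp only [k1cl_eq hθ h0]

theorem Gk_cont {Y θ0 : ℝ} (h0 : 0 < θ0) (h1 : θ0 < Real.pi / 2) : Continuous (Gk Y θ0) := by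
  have h2 : Gk Y θ0 = fun x => ∫ θ in (-θ0)..θ0, k1F Y θ0 x θ := by
    funext x
    exact k1_Gk_eq Y h0 x
  rw [h2]
  exact intervalIntegral.continuous_parametric_intervalIntegral_of_continuous'
    (k1F_cont Y h0 h1) _ _

theorem k1_cos_pos {θ0 : ℝ} (h0 : 0 < θ0) (h1 : θ0 < Real.pi / 2) : 0 < Real.cos θ0 :=
  Real.cos_pos_of_mem_Ioo ⟨by linarith [Real.pi_pos], h1⟩

/-- Gaussian bound of the integrand -/
theorem k1F_gauss (Y : ℝ) {θ0 : ℝ} (h0 : 0 < θ0) (h1 : θ0 < Real.pi / 2) (z : ℂ) :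
    ∃ B : ℝ, 0 < B ∧ ∀ x θ : ℝ, ‖k1F Y θ0 x θ * cexp (z * x)‖ ≤ B * Real.exp (-1 * x ^ 2) := by
  obtain ⟨B, hB, h⟩ := k1F_bound Y h0 h1
  have hc := k1_cos_pos h0 h1
  obtain ⟨C, hC⟩ := k1_gauss (5 + |z.re|) (κ := Real.pi * Real.cos θ0) (by positivity)
  refine ⟨B * Real.exp C, by positivity, fun x θ => ?_⟩
  rw [norm_mul, Complex.norm_exp]
  have h2 : (z * x).re ≤ |z.re| * |x| := by
    rw [re_mul_ofReal, ← abs_mul]
    exact le_abs_self _
  have h3 := hC |x| (abs_nonneg x)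
  rw [sq_abs] at h3
  calc ‖k1F Y θ0 x θ‖ * Real.exp (z * x).re
      ≤ (B * Real.exp (5 * |x| - Real.pi * Real.cos θ0 * Real.exp (2 * |x|))) *
        Real.exp (|z.re| * |x|) := by
        gcongr
        exact h x θ
    _ = B * Real.exp ((5 + |z.re|) * |x| - Real.pi * Real.cos θ0 * Real.exp (2 * |x|)) := by
        rw [mul_assoc, ← Real.exp_add]
        congr 2
        ring
    _ ≤ B * Real.exp (C - x ^ 2) := by gcongr
    _ = B * Real.exp C * Real.exp (-1 * x ^ 2) := by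
        rw [mul_assoc, ← Real.exp_add]
        congr 2
        ring

/-- shift of the line of integration -/
theorem k1_shift {θ0 θ : ℝ} (h0 : 0 < θ0) (h1 : θ0 < Real.pi / 2) (hθ : |θ| ≤ θ0) (z : ℂ) :
    ∫ x : ℝ, PhC ((x : ℂ) + (θ / 2 : ℝ) * I) * cexp (z * x) = cexp (-(I * z * θ / 2)) * Xi0 z := by
  obtain ⟨A, hA, hb⟩ := k1_bound (y0 := θ0 / 2) (by linarith) (by linarith)
  have hc := k1_cos_pos h0 h1
  obtain ⟨C, hC⟩ := k1_gauss (5 + |z.re|) (κ := Real.pi * Real.cos θ0) (by positivity)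
  have him : ∀ w : ℂ, w.im ∈ Set.uIcc (θ / 2) 0 → |w.im| ≤ θ0 / 2 := by
    intro w hw
    have h2 := abs_le.1 hθ
    rw [Set.mem_uIcc] at hw
    rw [abs_le]
    rcases hw with hw | hw
    · constructor <;> linarith [hw.1, hw.2]
    · constructor <;> linarith [hw.1, hw.2]
  have key := KK.shift_line (H := fun w => PhC w * cexp (z * w)) (a := θ / 2) (b := 0)
    (K := A * Real.exp (C + |z.im| * (θ0 / 2))) (δ := 1) one_pos (by
      intro w hw
      have h3 := him w hw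
      exact (k1_diff (by linarith)).mul (by fun_prop)) (by
      intro w hw
      have h3 := him w hw
      have h4 := hb w h3
      rw [show 2 * (θ0 / 2) = θ0 by ring] at h4
      have h5 := hC |w.re| (abs_nonneg _)
      rw [sq_abs] at h5
      have h6 : (z * w).re ≤ |z.re| * |w.re| + |z.im| * (θ0 / 2) := by
        rw [mul_re]
        have h7 : z.re * w.re ≤ |z.re| * |w.re| := by
          rw [← abs_mul]
          exact le_abs_self _
        have h8 : -(z.im * w.im) ≤ |z.im| * |w.im| := by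
          rw [← abs_mul]
          exact neg_le_abs _
        have h9 : |z.im| * |w.im| ≤ |z.im| * (θ0 / 2) := by gcongr
        linarith
      rw [norm_mul, Complex.norm_exp]
      calc ‖PhC w‖ * Real.exp (z * w).re
          ≤ (A * Real.exp (5 * |w.re| - Real.pi * Real.cos θ0 * Real.exp (2 * |w.re|))) *
            Real.exp (|z.re| * |w.re| + |z.im| * (θ0 / 2)) := by gcongr
        _ = A * Real.exp (((5 + |z.re|) * |w.re| - Real.pi * Real.cos θ0 *
            Real.exp (2 * |w.re|)) + |z.im| * (θ0 / 2)) := by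
            rw [mul_assoc, ← Real.exp_add]
            congr 2
            ring
        _ ≤ A * Real.exp ((C - w.re ^ 2) + |z.im| * (θ0 / 2)) := by gcongr
        _ = A * Real.exp (C + |z.im| * (θ0 / 2)) * Real.exp (-1 * w.re ^ 2) := by
            rw [mul_assoc, ← Real.exp_add]
            congr 2
            ring)
  have e1 : ∫ x : ℝ, PhC ((x : ℂ) + (θ / 2 : ℝ) * I) * cexp (z * x) =
      cexp (-(I * z * θ / 2)) * ∫ x : ℝ, PhC ((x : ℂ) + (θ / 2 : ℝ) * I) *
        cexp (z * ((x : ℂ) + (θ / 2 : ℝ) * I)) := by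
    rw [← integral_const_mul]
    congr 1
    funext x
    have : cexp (z * ((x : ℂ) + (θ / 2 : ℝ) * I)) = cexp (z * x) * cexp (I * z * θ / 2) := by
      rw [← Complex.exp_add]
      congr 1
      push_cast
      ring
    rw [this]
    have h10 : cexp (-(I * z * θ / 2)) * cexp (I * z * θ / 2) = 1 := by
      rw [← Complex.exp_add, neg_add_cancel, Complex.exp_zero]
    linear_combination (-(PhC ((x : ℂ) + (θ / 2 : ℝ) * I) * cexp (z * x))) * h10
  rw [e1, key]
  congr 1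
  unfold Xi0
  congr 1
  funext x
  simp [KK.PhC_ofReal]

theorem Gk_transform {Y θ0 : ℝ} (h0 : 0 < θ0) (h1 : θ0 < Real.pi / 2) (z : ℂ) :
    Integrable (fun x : ℝ => Gk Y θ0 x * cexp (z * x)) ∧
    ∫ x : ℝ, Gk Y θ0 x * cexp (z * x) = Xi0 z * Mk Y θ0 z := by
  obtain ⟨B, hB, hb⟩ := k1F_gauss Y h0 h1 z
  have hFc := k1F_cont Y h0 h1
  have hg : ∀ x : ℝ, Gk Y θ0 x * cexp (z * x) = ∫ θ in (-θ0)..θ0, k1F Y θ0 x θ * cexp (z * x) := by
    intro x
    rw [k1_Gk_eq Y h0 x, intervalIntegral.integral_mul_const]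
  constructor
  · refine Integrable.mono' (g := fun x => (B * |θ0 - (-θ0)|) * Real.exp (-1 * x ^ 2))
      ((integrable_exp_neg_mul_sq one_pos).const_mul _) ?_ (Eventually.of_forall fun x => ?_)
    · exact ((Gk_cont h0 h1).mul (by fun_prop)).aestronglyMeasurable
    · rw [hg x]
      have := intervalIntegral.norm_integral_le_of_norm_le_const (a := -θ0) (b := θ0)
        (f := fun θ => k1F Y θ0 x θ * cexp (z * x)) (C := B * Real.exp (-1 * x ^ 2))
        (fun θ _ => hb x θ)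
      refine this.trans (le_of_eq ?_)
      ring
  · simp only [hg]
    have hint : Integrable (Function.uncurry fun θ x => k1F Y θ0 x θ * cexp (z * x))
        ((volume.restrict (Set.uIoc (-θ0) θ0)).prod volume) := by
      have hI1 : Integrable (fun _ : ℝ => B) (volume.restrict (Set.uIoc (-θ0) θ0)) :=
        intervalIntegrable_iff.1 (intervalIntegrable_const (a := -θ0) (b := θ0) (μ := volume))
      have hI2 : Integrable (fun x : ℝ => Real.exp (-1 * x ^ 2)) :=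
        integrable_exp_neg_mul_sq one_pos
      refine Integrable.mono' (hI1.mul_prod hI2) ?_ (Eventually.of_forall fun p => ?_)
      · apply Continuous.aestronglyMeasurable
        have h2 : Continuous (Function.uncurry (k1F Y θ0) ∘ Prod.swap) :=
          Continuous.comp hFc continuous_swap
        have h2 : Continuous (fun p : ℝ × ℝ => k1F Y θ0 p.2 p.1) := h2
        have h5 : Continuous (fun p : ℝ × ℝ => cexp (z * p.2)) := by fun_prop
        have h6 : Continuous (fun p : ℝ × ℝ => k1F Y θ0 p.2 p.1 * cexp (z * p.2)) := h2.mul h5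
        exact h6
      · exact hb p.2 p.1
    rw [← intervalIntegral_integral_swap hint]
    have h3 : ∀ θ ∈ Set.uIcc (-θ0) θ0, (∫ x : ℝ, k1F Y θ0 x θ * cexp (z * x)) =
        Xi0 z * ((wk Y θ : ℂ) * cexp (-(I * z * θ / 2))) := by
      intro θ hθ
      have hθ' : |θ| ≤ θ0 := by
        rw [Set.uIcc_of_le (by linarith)] at hθ
        exact abs_le.2 hθ
      unfold k1F
      simp only [k1cl_eq hθ h0]
      have h4 : ∀ x : ℝ, (wk Y θ : ℂ) * PhC ((x : ℂ) + (θ / 2 : ℝ) * I) * cexp (z * x) =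
          (wk Y θ : ℂ) * (PhC ((x : ℂ) + (θ / 2 : ℝ) * I) * cexp (z * x)) := fun x => mul_assoc _ _ _
      simp only [h4]
      rw [integral_const_mul, k1_shift h0 h1 hθ' z]
      ring
    rw [intervalIntegral.integral_congr h3, intervalIntegral.integral_const_mul]
    rfl

theorem Gk_even {Y θ0 : ℝ} (h0 : 0 < θ0) (h1 : θ0 < Real.pi / 2) (x : ℝ) :
    Gk Y θ0 (-x) = Gk Y θ0 x := by
  unfold Gk
  have h2 := intervalIntegral.integral_comp_neg (a := -θ0) (b := θ0)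
    (fun θ : ℝ => (wk Y θ : ℂ) * PhC (((-x : ℝ) : ℂ) + (θ / 2 : ℝ) * I))
  rw [neg_neg] at h2
  rw [← h2]
  refine intervalIntegral.integral_congr fun θ hθ => ?_
  have hθ' : |θ| ≤ θ0 := by
    rw [Set.uIcc_of_le (by linarith)] at hθ
    exact abs_le.2 hθ
  have h3 : wk Y (-θ) = wk Y θ := by
    unfold wk
    rw [Real.cos_neg]
  have h4 : ((-x : ℝ) : ℂ) + ((-θ / 2 : ℝ) : ℂ) * I = -((x : ℂ) + (θ / 2 : ℝ) * I) := by
    push_cast
    ring
  simp only [h3, h4]
  rw [k1_even]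
  rw [k1_im, abs_div, abs_of_pos (by norm_num : (0 : ℝ) < 2)]
  linarith

/-- pointwise bound in the local form -/
theorem k2_bound {c : ℝ} (hc : 0 < c) : ∃ A : ℝ, 0 < A ∧ ∀ t : ℂ,
    c ≤ Real.pi * Real.exp (2 * t.re) * Real.cos (2 * t.im) →
    ‖PhC t‖ ≤ A * Real.exp (9 / 2 * t.re -
      Real.pi * Real.exp (2 * t.re) * Real.cos (2 * t.im)) := by
  obtain ⟨A, hA, h⟩ := RK.norm_g_le hc
  refine ⟨2 * (A * Real.pi ^ 2), by positivity, fun t ht => ?_⟩
  have e2 : (t / 2).re = t.re / 2 := by simp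
  have e3 : (t / 2).im = t.im / 2 := by simp
  have e1 : ((Real.pi : ℂ) * cexp (4 * (t / 2))).re =
      Real.pi * Real.exp (2 * t.re) * Real.cos (2 * t.im) := by
    rw [RK.re_exp4, e2, e3, show 4 * (t.re / 2) = 2 * t.re by ring,
      show 4 * (t.im / 2) = 2 * t.im by ring]
  have e4 : ‖(Real.pi : ℂ) * cexp (4 * (t / 2))‖ = Real.pi * Real.exp (2 * t.re) := by
    rw [norm_mul, norm_real, Real.norm_of_nonneg Real.pi_pos.le, norm_exp]
    have e5 : (4 * (t / 2)).re = 2 * t.re := by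
      rw [show 4 * (t / 2) = 2 * t by ring]
      simp
    rw [e5]
  have h2 := h ((Real.pi : ℂ) * cexp (4 * (t / 2))) (by rw [e1]; exact ht)
  rw [e1, e4] at h2
  unfold KK.PhC RK.PhiC
  rw [norm_mul, norm_mul, norm_exp, e2]
  simp only [norm_ofNat]
  calc 2 * (Real.exp (t.re / 2) * ‖RK.g ((Real.pi : ℂ) * cexp (4 * (t / 2)))‖)
      ≤ 2 * (Real.exp (t.re / 2) * (A * (Real.pi * Real.exp (2 * t.re)) ^ 2 *
        Real.exp (-(Real.pi * Real.exp (2 * t.re) * Real.cos (2 * t.im))))) := by gcongr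
    _ = 2 * (A * Real.pi ^ 2) * (Real.exp (t.re / 2) * Real.exp (2 * t.re) ^ 2 *
        Real.exp (-(Real.pi * Real.exp (2 * t.re) * Real.cos (2 * t.im)))) := by ring
    _ = _ := by
        rw [← Real.exp_nat_mul, ← Real.exp_add, ← Real.exp_add]
        congr 2
        push_cast
        ring

/-- the function whose integral over `[-θ0, θ0]` is `Gk` -/
noncomputable def k2f (Y x : ℝ) (w : ℂ) : ℂ :=
  cexp (2 * Real.pi * Y * Complex.cos w) * PhC (x + I * w / 2)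

theorem k2_re (x θ η : ℝ) : ((x : ℂ) + I * ((θ : ℂ) + η * I) / 2).re = x - η / 2 := by
  have : (x : ℂ) + I * ((θ : ℂ) + η * I) / 2 = ((x - η / 2 : ℝ) : ℂ) + ((θ / 2 : ℝ) : ℂ) * I := by
    push_cast
    linear_combination ((η : ℂ) / 2) * I_mul_I
  rw [this, k1_re]

theorem k2_im (x θ η : ℝ) : ((x : ℂ) + I * ((θ : ℂ) + η * I) / 2).im = θ / 2 := by
  have : (x : ℂ) + I * ((θ : ℂ) + η * I) / 2 = ((x - η / 2 : ℝ) : ℂ) + ((θ / 2 : ℝ) : ℂ) * I := by
    push_cast
    linear_combination ((η : ℂ) / 2) * I_mul_I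
  rw [this, k1_im]

theorem k2_cos_re (θ η : ℝ) : (Complex.cos ((θ : ℂ) + η * I)).re = Real.cos θ * Real.cosh η := by
  rw [Complex.cos_add_mul_I, ← ofReal_cos, ← ofReal_cosh, ← ofReal_sin, ← ofReal_sinh, sub_re,
    ← ofReal_mul, ofReal_re, ← ofReal_mul, re_ofReal_mul]
  simp

theorem k2_pt {θ0 : ℝ} (h0 : 0 < θ0) (h1 : θ0 < Real.pi / 2) : ∃ A : ℝ, 0 < A ∧
    ∀ Y x M θ η : ℝ, 1 ≤ Y → Y ≤ Real.exp (2 * x) → |θ| ≤ θ0 → -M ≤ η → η ≤ 0 →
      ‖k2f Y x ((θ : ℂ) + η * I)‖ ≤ A * Real.exp (9 / 2 * (x + M / 2) +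
        Real.pi * Y * Real.cos θ * Real.exp η - Real.pi * Real.cos θ0 * (Real.exp (2 * x) - Y)) := by
  have hc0 := k1_cos_pos h0 h1
  obtain ⟨A, hA, h⟩ := k2_bound (c := Real.pi * Real.cos θ0) (by positivity)
  refine ⟨A, hA, fun Y x M θ η hY hx hθ hη1 hη2 => ?_⟩
  have hpi := Real.pi_pos
  have hcos : Real.cos θ0 ≤ Real.cos θ := by
    rw [← Real.cos_abs θ]
    exact Real.cos_le_cos_of_nonneg_of_le_pi (abs_nonneg _) (by linarith) hθ
  have e1 : Real.exp (2 * (x - η / 2)) = Real.exp (2 * x) * Real.exp (-η) := by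
    rw [← Real.exp_add]
    congr 1
    ring
  have hp : 1 ≤ Real.exp (-η) := Real.one_le_exp (by linarith)
  have hE : 1 ≤ Real.exp (2 * x) := hY.trans hx
  have hcp : Real.cos θ0 ≤ Real.cos θ * Real.exp (-η) := by
    calc Real.cos θ0 = Real.cos θ0 * 1 := (mul_one _).symm
      _ ≤ Real.cos θ * Real.exp (-η) := by
        apply mul_le_mul hcos hp (by norm_num) (hc0.le.trans hcos)
  have h2 := h ((x : ℂ) + I * ((θ : ℂ) + η * I) / 2) (by
    rw [k2_re, k2_im, e1, show 2 * (θ / 2) = θ by ring]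
    calc Real.pi * Real.cos θ0 = Real.pi * (1 * Real.cos θ0) := by ring
      _ ≤ Real.pi * (Real.exp (2 * x) * (Real.cos θ * Real.exp (-η))) := by
          apply mul_le_mul_of_nonneg_left _ hpi.le
          exact mul_le_mul hE hcp hc0.le (by positivity)
      _ = _ := by ring)
  rw [k2_re, k2_im, e1, show 2 * (θ / 2) = θ by ring] at h2
  unfold k2f
  rw [norm_mul, Complex.norm_exp]
  have e2 : (2 * (Real.pi : ℂ) * Y * Complex.cos ((θ : ℂ) + η * I)).re =
      Real.pi * Y * Real.cos θ * (Real.exp η + Real.exp (-η)) := by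
    rw [show 2 * (Real.pi : ℂ) * Y = ((2 * Real.pi * Y : ℝ) : ℂ) by push_cast; ring,
      re_ofReal_mul, k2_cos_re, Real.cosh_eq]
    ring
  rw [e2]
  calc Real.exp (Real.pi * Y * Real.cos θ * (Real.exp η + Real.exp (-η))) *
        ‖PhC ((x : ℂ) + I * ((θ : ℂ) + η * I) / 2)‖
      ≤ Real.exp (Real.pi * Y * Real.cos θ * (Real.exp η + Real.exp (-η))) *
        (A * Real.exp (9 / 2 * (x - η / 2) - Real.pi * (Real.exp (2 * x) * Real.exp (-η)) *
          Real.cos θ)) := by gcongr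
    _ = A * Real.exp (9 / 2 * (x - η / 2) + Real.pi * Y * Real.cos θ * Real.exp η -
          Real.pi * ((Real.cos θ * Real.exp (-η)) * (Real.exp (2 * x) - Y))) := by
        rw [mul_left_comm, ← Real.exp_add]
        congr 2
        ring
    _ ≤ A * Real.exp (9 / 2 * (x + M / 2) +
        Real.pi * Y * Real.cos θ * Real.exp η - Real.pi * Real.cos θ0 * (Real.exp (2 * x) - Y)) := by
        refine mul_le_mul_of_nonneg_left (Real.exp_le_exp.2 ?_) hA.le
        have h3 : Real.cos θ0 * (Real.exp (2 * x) - Y) ≤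
            (Real.cos θ * Real.exp (-η)) * (Real.exp (2 * x) - Y) :=
          mul_le_mul_of_nonneg_right hcp (by linarith)
        have h4 : Real.pi * Real.cos θ0 * (Real.exp (2 * x) - Y) ≤
            Real.pi * ((Real.cos θ * Real.exp (-η)) * (Real.exp (2 * x) - Y)) := by
          rw [mul_assoc]
          exact mul_le_mul_of_nonneg_left h3 hpi.le
        linarith

theorem k2_rect {θ0 : ℝ} (h0 : 0 < θ0) (h1 : θ0 < Real.pi / 2) (Y x M : ℝ) :
    Gk Y θ0 x = (∫ θ in (-θ0)..θ0, k2f Y x ((θ : ℂ) + ((-M : ℝ) : ℂ) * I)) +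
      I • (∫ η in (-M)..0, k2f Y x ((θ0 : ℂ) + η * I)) -
      I • (∫ η in (-M)..0, k2f Y x (((-θ0 : ℝ) : ℂ) + η * I)) := by
  have h2 := Complex.integral_boundary_rect_eq_zero_of_differentiableOn (k2f Y x)
    (((-θ0 : ℝ) : ℂ) + ((-M : ℝ) : ℂ) * I) ((θ0 : ℂ) + ((0 : ℝ) : ℂ) * I) (by
      intro w hw
      have hw2 := hw.1
      have hw3 : w.re ∈ Set.uIcc (-θ0) θ0 := by simpa using hw2
      rw [Set.uIcc_of_le (by linarith)] at hw3
      apply DifferentiableAt.differentiableWithinAt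
      unfold k2f
      have h3 : DifferentiableAt ℂ PhC ((x : ℂ) + I * w / 2) := by
        apply k1_diff
        have : ((x : ℂ) + I * w / 2).im = w.re / 2 := by simp
        rw [this, abs_div, abs_of_pos (by norm_num : (0 : ℝ) < 2)]
        have := abs_le.2 hw3
        linarith
      have h4 : DifferentiableAt ℂ (fun w : ℂ => PhC ((x : ℂ) + I * w / 2)) w :=
        DifferentiableAt.comp (g := PhC) (f := fun w : ℂ => (x : ℂ) + I * w / 2) w h3
          (by fun_prop)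
      exact DifferentiableAt.mul (by fun_prop) h4)
  simp only [add_re, ofReal_re, mul_re, I_re, mul_zero, ofReal_im, I_im, mul_one, sub_self,
    add_zero, add_im, mul_im, zero_add] at h2
  have h5 : (∫ θ in (-θ0)..θ0, k2f Y x ((θ : ℂ) + ((0 : ℝ) : ℂ) * I)) = Gk Y θ0 x := by
    unfold Gk
    refine intervalIntegral.integral_congr fun θ _ => ?_
    unfold k2f wk
    simp only [ofReal_zero, zero_mul, add_zero]
    congr 1
    · rw [ofReal_exp]
      push_cast
      rfl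
    · congr 1
      push_cast
      ring
  rw [h5] at h2
  linear_combination -h2

theorem k2_Gk_le {θ0 : ℝ} (h0 : 0 < θ0) (h1 : θ0 < Real.pi / 2) : ∃ B C : ℝ, 0 < B ∧
    ∀ Y x : ℝ, 1 ≤ Y → Y ≤ Real.exp (2 * x) →
      ‖Gk Y θ0 x‖ ≤ B * Real.exp (9 / 2 * x + C + Real.pi * Y * Real.cos θ0 -
        Real.pi * Real.cos θ0 * (Real.exp (2 * x) - Y)) := by
  obtain ⟨A, hA, h⟩ := k2_pt h0 h1
  have hc0 := k1_cos_pos h0 h1
  set M : ℝ := -Real.log (Real.cos θ0) with hM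
  have hM0 : 0 ≤ M := by
    have := Real.log_nonpos hc0.le (Real.cos_le_one θ0)
    linarith
  have hMe : Real.exp (-M) = Real.cos θ0 := by
    rw [hM, neg_neg, Real.exp_log hc0]
  refine ⟨(2 * θ0 + 2 * M) * A, 9 / 4 * M, by positivity, fun Y x hY hx => ?_⟩
  have hpi := Real.pi_pos
  set S : ℝ := A * Real.exp (9 / 2 * x + 9 / 4 * M + Real.pi * Y * Real.cos θ0 -
        Real.pi * Real.cos θ0 * (Real.exp (2 * x) - Y)) with hS
  have hb : ‖∫ θ in (-θ0)..θ0, k2f Y x ((θ : ℂ) + ((-M : ℝ) : ℂ) * I)‖ ≤ S * |θ0 - -θ0| := by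
    apply intervalIntegral.norm_integral_le_of_norm_le_const
    intro θ hθ
    rw [Set.uIoc_of_le (by linarith)] at hθ
    have hθ' : |θ| ≤ θ0 := abs_le.2 ⟨hθ.1.le, hθ.2⟩
    refine (h Y x M θ (-M) hY hx hθ' le_rfl (by linarith)).trans ?_
    rw [hS]
    refine mul_le_mul_of_nonneg_left (Real.exp_le_exp.2 ?_) hA.le
    rw [hMe]
    have h3 : Real.pi * Y * Real.cos θ * Real.cos θ0 ≤ Real.pi * Y * Real.cos θ0 := by
      have h4 : Real.pi * Y * Real.cos θ ≤ Real.pi * Y * 1 := by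
        gcongr
        exact Real.cos_le_one θ
      calc Real.pi * Y * Real.cos θ * Real.cos θ0 ≤ Real.pi * Y * 1 * Real.cos θ0 := by gcongr
        _ = _ := by ring
    linarith
  have hside : ∀ θ : ℝ, |θ| = θ0 → ‖∫ η in (-M)..0, k2f Y x ((θ : ℂ) + η * I)‖ ≤ S * |0 - -M| := by
    intro θ hθ
    apply intervalIntegral.norm_integral_le_of_norm_le_const
    intro η hη
    rw [Set.uIoc_of_le (by linarith)] at hη
    refine (h Y x M θ η hY hx hθ.le hη.1.le hη.2).trans ?_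
    rw [hS]
    refine mul_le_mul_of_nonneg_left (Real.exp_le_exp.2 ?_) hA.le
    have h3 : Real.cos θ = Real.cos θ0 := by rw [← Real.cos_abs, hθ]
    rw [h3]
    have h4 : Real.exp η ≤ 1 := Real.exp_le_one_iff.2 hη.2
    have h5 : Real.pi * Y * Real.cos θ0 * Real.exp η ≤ Real.pi * Y * Real.cos θ0 * 1 := by
      gcongr
    linarith
  have hs1 := hside θ0 (abs_of_pos h0)
  have hs2 := hside (-θ0) (by rw [abs_neg, abs_of_pos h0])
  rw [k2_rect h0 h1 Y x M]
  have h6 : |θ0 - -θ0| = 2 * θ0 := by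
    rw [abs_of_pos (by linarith)]
    ring
  have h7 : |0 - -M| = M := by
    rw [zero_sub, neg_neg, abs_of_nonneg hM0]
  rw [h6] at hb
  rw [h7] at hs1 hs2
  refine (norm_sub_le _ _).trans ?_
  refine (add_le_add (norm_add_le _ _) le_rfl).trans ?_
  rw [norm_smul, norm_smul, norm_I, one_mul, one_mul]
  calc _ ≤ S * (2 * θ0) + S * M + S * M := add_le_add (add_le_add hb hs1) hs2
    _ = _ := by rw [hS]; ring

theorem Gk_tail {ε : ℝ} (hε : 0 < ε) : ∃ θ1 : ℝ, 0 < θ1 ∧ θ1 < Real.pi / 2 ∧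
    ∀ θ0 : ℝ, θ1 ≤ θ0 → θ0 < Real.pi / 2 → ∃ Y0 : ℝ, 1 ≤ Y0 ∧ ∀ Y : ℝ, Y0 ≤ Y → ∀ x : ℝ,
      Real.log Y / 2 ≤ |x| → ‖Gk Y θ0 x‖ ≤ Real.exp (ε * Y) * Real.exp (-2 * (|x| - Real.log Y / 2)) := by
  have hpi := Real.pi_pos
  set d : ℝ := min (Real.pi / 4) (ε / (2 * Real.pi)) with hd
  have hd0 : 0 < d := by
    rw [hd]
    exact lt_min (by positivity) (by positivity)
  have hd1 : d ≤ Real.pi / 4 := min_le_left _ _
  have hd2 : d ≤ ε / (2 * Real.pi) := min_le_right _ _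
  refine ⟨Real.pi / 2 - d, by linarith, by linarith, fun θ0 hθ1 hθ2 => ?_⟩
  have h0 : 0 < θ0 := by linarith
  have hc0 := k1_cos_pos h0 hθ2
  have hcε : Real.pi * Real.cos θ0 ≤ ε / 2 := by
    have h3 : Real.cos θ0 ≤ d := by
      have h4 : Real.cos θ0 ≤ Real.cos (Real.pi / 2 - d) :=
        Real.cos_le_cos_of_nonneg_of_le_pi (by linarith) (by linarith) hθ1
      rw [Real.cos_pi_div_two_sub] at h4
      exact h4.trans (Real.sin_le hd0.le)
    calc Real.pi * Real.cos θ0 ≤ Real.pi * (ε / (2 * Real.pi)) := by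
          apply mul_le_mul_of_nonneg_left (h3.trans hd2) hpi.le
      _ = ε / 2 := by field_simp
  obtain ⟨B, C, hB, hG⟩ := k2_Gk_le h0 hθ2
  set κ : ℝ := Real.pi * Real.cos θ0 with hκ
  have hκ0 : 0 < κ := by positivity
  have hlog := (Real.isLittleO_log_id_atTop.def (c := ε / 9) (by positivity))
  have hev : ∀ᶠ Y : ℝ in atTop, 1 ≤ Y ∧ 9 / 4 * Real.log Y ≤ ε / 4 * Y ∧
      Real.log B + C ≤ ε / 4 * Y ∧ 13 / 2 ≤ 2 * κ * Y := by
    filter_upwards [hlog, eventually_ge_atTop (1 : ℝ),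
      eventually_ge_atTop ((Real.log B + C) / (ε / 4)), eventually_ge_atTop (13 / 2 / (2 * κ))]
      with Y h1 h2 h3 h4
    refine ⟨h2, ?_, ?_, ?_⟩
    · simp only [id, Real.norm_eq_abs] at h1
      rw [abs_of_nonneg (Real.log_nonneg h2), abs_of_pos (by linarith : (0 : ℝ) < Y)] at h1
      linarith
    · rw [div_le_iff₀ (by positivity)] at h3
      linarith
    · rw [div_le_iff₀ (by positivity)] at h4
      linarith
  obtain ⟨Y1, hY1⟩ := eventually_atTop.1 hev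
  refine ⟨max Y1 1, le_max_right _ _, fun Y hY x hx => ?_⟩
  obtain ⟨hY2, hY3, hY4, hY5⟩ := hY1 Y ((le_max_left _ _).trans hY)
  have hYpos : 0 < Y := by linarith
  -- reduce to `x ≥ 0`
  have key : ∀ x : ℝ, Real.log Y / 2 ≤ x →
      ‖Gk Y θ0 x‖ ≤ Real.exp (ε * Y) * Real.exp (-2 * (x - Real.log Y / 2)) := by
    intro x hx
    set v : ℝ := x - Real.log Y / 2 with hv
    have hv0 : 0 ≤ v := by linarith
    have hx2 : x = v + Real.log Y / 2 := by linarith
    have hE : Real.exp (2 * x) = Y * Real.exp (2 * v) := by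
      rw [hx2, show 2 * (v + Real.log Y / 2) = Real.log Y + 2 * v by ring, Real.exp_add,
        Real.exp_log hYpos]
    have hE2 : 1 + 2 * v ≤ Real.exp (2 * v) := by
      have := Real.add_one_le_exp (2 * v)
      linarith
    have hE3 : Y ≤ Real.exp (2 * x) := by
      rw [hE]
      nlinarith
    refine (hG Y x hY2 hE3).trans ?_
    rw [← Real.exp_add, ← Real.exp_log hB, ← Real.exp_add]
    apply Real.exp_le_exp.2
    have h5 : κ * (2 * v * Y) ≤ κ * (Real.exp (2 * x) - Y) := by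
      apply mul_le_mul_of_nonneg_left _ hκ0.le
      rw [hE]
      nlinarith
    have h6 : Real.pi * Y * Real.cos θ0 ≤ ε / 2 * Y := by
      calc Real.pi * Y * Real.cos θ0 = κ * Y := by rw [hκ]; ring
        _ ≤ ε / 2 * Y := mul_le_mul_of_nonneg_right hcε hYpos.le
    have h7 : 13 / 2 * v ≤ 2 * κ * Y * v := mul_le_mul_of_nonneg_right hY5 hv0
    rw [hx2]
    rw [hx2] at h5
    nlinarith
  rcases le_total 0 x with hx0 | hx0
  · rw [abs_of_nonneg hx0] at hx ⊢
    exact key x hx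
  · rw [abs_of_nonpos hx0] at hx ⊢
    rw [← Gk_even h0 hθ2 x]
    exact key (-x) hx

end Pool.Agent.Helper76.EX
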