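import Pool.Agent.Helper76.EX.Defs

/-!
# Package K3: the multiplier `Mk`
-/

set_option autoImplicit false

namespace Pool.Agent.Helper76.EX

open Complex Filter Topology Set MeasureTheory
open scoped ComplexConjugate

/-- the integrand of the multiplier -/
noncomputable def k3F (Y : ℝ) (z : ℂ) (θ : ℝ) : ℂ := (wk Y θ : ℂ) * cexp (-(I * z * θ / 2))

theorem k3_Mk_eq (Y θ0 : ℝ) (z : ℂ) : Mk Y θ0 z = ∫ θ in (-θ0)..θ0, k3F Y z θ := rfl

theorem k3F_cont (Y : ℝ) (z : ℂ) : Continuous (k3F Y z) := by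
  unfold k3F wk
  fun_prop

theorem k3_exp_re (z : ℂ) (θ : ℝ) : (-(I * z * θ / 2)).re = z.im * θ / 2 := by
  have h : -(I * z * θ / 2) = -(I * z) * ((θ / 2 : ℝ) : ℂ) := by
    push_cast
    ring
  rw [h, Complex.re_mul_ofReal]
  simp
  ring

theorem k3_exp_im (z : ℂ) (θ : ℝ) : (-(I * z * θ / 2)).im = -(z.re * θ / 2) := by
  have h : -(I * z * θ / 2) = -(I * z) * ((θ / 2 : ℝ) : ℂ) := by
    push_cast
    ring
  rw [h, Complex.im_mul_ofReal]
  simp
  ring

theorem k3F_norm (Y : ℝ) (z : ℂ) (θ : ℝ) : ‖k3F Y z θ‖ = wk Y θ * Real.exp (z.im * θ / 2) := by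
  unfold k3F
  rw [norm_mul, Complex.norm_real, Complex.norm_exp, k3_exp_re, Real.norm_eq_abs,
    abs_of_pos (show 0 < wk Y θ from Real.exp_pos _)]

theorem k3F_re (Y : ℝ) (z : ℂ) (θ : ℝ) :
    (k3F Y z θ).re = wk Y θ * Real.exp (z.im * θ / 2) * Real.cos (z.re * θ / 2) := by
  unfold k3F
  rw [Complex.re_ofReal_mul, Complex.exp_re, k3_exp_re, k3_exp_im, Real.cos_neg]
  ring

theorem Mk_diff (Y θ0 : ℝ) : Differentiable ℂ (Mk Y θ0) := by
  intro z0
  have h1 : ∀ z : ℂ, ∀ θ : ℝ, HasDerivAt (fun z : ℂ => k3F Y z θ) (k3F Y z θ * (-(I * θ / 2))) z := by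
    intro z θ
    unfold k3F
    have h2 : HasDerivAt (fun z : ℂ => -(I * z * θ / 2)) (-(I * θ / 2)) z := by
      have h3 : HasDerivAt (fun z : ℂ => z * (-(I * θ / 2))) (1 * (-(I * θ / 2))) z :=
        (hasDerivAt_id z).mul_const _
      rw [one_mul] at h3
      refine h3.congr_of_eventuallyEq (Eventually.of_forall fun w => ?_)
      ring
    have h4 := (h2.cexp).const_mul (wk Y θ : ℂ)
    exact h4.congr_deriv (by ring)
  set C : ℝ := Real.exp (2 * Real.pi * |Y|) * Real.exp ((‖z0‖ + 1) * |θ0| / 2) * (|θ0| / 2)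
    with hC
  have h2 := intervalIntegral.hasDerivAt_integral_of_dominated_loc_of_deriv_le (μ := volume)
    (𝕜 := ℂ) (E := ℂ) (F := fun (z : ℂ) (θ : ℝ) => k3F Y z θ)
    (F' := fun (z : ℂ) (θ : ℝ) => k3F Y z θ * (-(I * θ / 2))) (x₀ := z0) (s := Metric.ball z0 1)
    (a := -θ0) (b := θ0) (bound := fun _ => C) (Metric.ball_mem_nhds z0 one_pos)
    (Eventually.of_forall fun z => (k3F_cont Y z).aestronglyMeasurable)
    ((k3F_cont Y z0).intervalIntegrable _ _)
    (((k3F_cont Y z0).mul (by fun_prop)).aestronglyMeasurable)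
    (by
      refine Eventually.of_forall fun θ hθ z hz => ?_
      have hθ' : |θ| ≤ |θ0| := by
        rw [Set.mem_uIoc] at hθ
        rcases hθ with h | h
        · rw [abs_le]
          have := le_abs_self θ0
          constructor <;> linarith [h.1, h.2]
        · rw [abs_le]
          have := neg_abs_le θ0
          constructor <;> linarith [h.1, h.2]
      rw [norm_mul, k3F_norm]
      have h3 : wk Y θ ≤ Real.exp (2 * Real.pi * |Y|) := by
        unfold wk
        refine Real.exp_le_exp.2 ?_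
        have h4 : Y * Real.cos θ ≤ |Y| := by
          refine (le_abs_self _).trans ?_
          rw [abs_mul]
          exact mul_le_of_le_one_right (abs_nonneg _) (Real.abs_cos_le_one θ)
        have h5 := mul_le_mul_of_nonneg_left h4 (by positivity : (0 : ℝ) ≤ 2 * Real.pi)
        linarith
      have h4 : Real.exp (z.im * θ / 2) ≤ Real.exp ((‖z0‖ + 1) * |θ0| / 2) := by
        refine Real.exp_le_exp.2 ?_
        have h5 : |z.im| ≤ ‖z0‖ + 1 := by
          refine (Complex.abs_im_le_norm z).trans ?_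
          have h6 : ‖z - z0‖ < 1 := by
            rw [← dist_eq_norm]
            exact hz
          have h7 : ‖z‖ ≤ ‖z - z0‖ + ‖z0‖ := by
            have := norm_add_le (z - z0) z0
            rwa [sub_add_cancel] at this
          linarith
        have h6 : z.im * θ ≤ (‖z0‖ + 1) * |θ0| := by
          refine (le_abs_self _).trans ?_
          rw [abs_mul]
          exact mul_le_mul h5 hθ' (abs_nonneg _) (by positivity)
        linarith
      have h5 : ‖-(I * (θ : ℂ) / 2)‖ ≤ |θ0| / 2 := by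
        rw [norm_neg, norm_div, norm_mul, Complex.norm_I, one_mul, Complex.norm_real]
        norm_num
        linarith
      rw [hC]
      have h6 : 0 < wk Y θ := Real.exp_pos _
      gcongr)
    (by simp)
    (Eventually.of_forall fun θ _ z _ => h1 z θ)
  exact h2.2.differentiableAt

theorem Mk_refl {Y θ0 : ℝ} (z : ℂ) : Mk Y θ0 (-conj z) = conj (Mk Y θ0 z) := by
  rw [k3_Mk_eq, k3_Mk_eq]
  have h1 := Complex.conjCLE.toContinuousLinearMap.intervalIntegral_comp_comm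
    ((k3F_cont Y z).intervalIntegrable (μ := volume) (-θ0) θ0)
  have h2 : ∀ w : ℂ, Complex.conjCLE.toContinuousLinearMap w = conj w := fun w => rfl
  simp only [h2] at h1
  rw [← h1]
  refine intervalIntegral.integral_congr fun θ _ => ?_
  simp only [k3F]
  rw [map_mul, ← Complex.exp_conj, Complex.conj_ofReal]
  congr 2
  simp only [map_neg, map_div₀, map_mul, Complex.conj_I, Complex.conj_ofReal]
  have : (starRingEnd ℂ) 2 = 2 := Complex.conj_ofNat 2
  rw [this]
  ring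

theorem Mk_up {Y θ0 : ℝ} (hY : 0 ≤ Y) (h0 : 0 ≤ θ0) (h1 : θ0 ≤ Real.pi / 2) (z : ℂ) :
    ‖Mk Y θ0 z‖ ≤ 4 * Real.exp (2 * Real.pi * Y + ‖z‖) := by
  rw [k3_Mk_eq]
  have hpi := Real.pi_le_four
  have h2 := intervalIntegral.norm_integral_le_of_norm_le_const (a := -θ0) (b := θ0)
    (f := k3F Y z) (C := Real.exp (2 * Real.pi * Y + ‖z‖)) (by
      intro θ hθ
      have hθ' : |θ| ≤ θ0 := by
        rw [Set.uIoc_of_le (by linarith)] at hθ
        rw [abs_le]
        exact ⟨hθ.1.le, hθ.2⟩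
      rw [k3F_norm]
      unfold wk
      rw [← Real.exp_add]
      refine Real.exp_le_exp.2 ?_
      have h3 : 2 * Real.pi * Y * Real.cos θ ≤ 2 * Real.pi * Y :=
        mul_le_of_le_one_right (by positivity) (Real.cos_le_one θ)
      have h4 : z.im * θ ≤ ‖z‖ * 2 := by
        refine (le_abs_self _).trans ?_
        rw [abs_mul]
        exact mul_le_mul (Complex.abs_im_le_norm z) (by linarith) (abs_nonneg _) (norm_nonneg _)
      linarith)
  refine h2.trans ?_
  have h3 : |θ0 - -θ0| ≤ 4 := by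
    rw [abs_of_nonneg (by linarith)]
    linarith
  rw [mul_comm]
  exact mul_le_mul_of_nonneg_right h3 (Real.exp_pos _).le

theorem k3_cos_low {x : ℝ} (hx : |x| ≤ Real.pi / 4) : 7 / 10 ≤ Real.cos x := by
  rw [← Real.cos_abs]
  have h1 : Real.cos (Real.pi / 4) ≤ Real.cos |x| :=
    Real.cos_le_cos_of_nonneg_of_le_pi (abs_nonneg _) (by linarith [Real.pi_pos]) hx
  refine le_trans ?_ h1
  rw [Real.cos_pi_div_four]
  have h2 : (7 / 5 : ℝ) ≤ √2 := Real.le_sqrt_of_sq_le (by norm_num)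
  linarith

theorem k3_re_nonneg {Y θ0 : ℝ} (h1 : θ0 ≤ Real.pi / 2) {z : ℂ} (hz : |z.re| ≤ 1) {θ : ℝ}
    (hθ : |θ| ≤ θ0) : 7 / 10 * (wk Y θ * Real.exp (z.im * θ / 2)) ≤ (k3F Y z θ).re := by
  rw [k3F_re]
  have h2 : |z.re * θ / 2| ≤ Real.pi / 4 := by
    rw [abs_div, abs_mul, abs_two]
    have h3 : |z.re| * |θ| ≤ 1 * (Real.pi / 2) :=
      mul_le_mul hz (hθ.trans h1) (abs_nonneg _) zero_le_one
    linarith
  have h3 := k3_cos_low h2
  have h4 : 0 < wk Y θ * Real.exp (z.im * θ / 2) := mul_pos (Real.exp_pos _) (Real.exp_pos _)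
  nlinarith

/-- the basic lower bound -/
theorem k3_low_aux {Y θ0 : ℝ} (h1 : θ0 ≤ Real.pi / 2) {z : ℂ} (hz : |z.re| ≤ 1)
    {a b L : ℝ} (ha : -θ0 ≤ a) (hab : a ≤ b) (hb : b ≤ θ0)
    (hL : ∀ θ ∈ Set.Icc a b, L ≤ 2 * Real.pi * Y * Real.cos θ + z.im * θ / 2) :
    7 / 10 * (b - a) * Real.exp L ≤ ‖Mk Y θ0 z‖ := by
  refine le_trans ?_ (Complex.re_le_norm _)
  rw [k3_Mk_eq]
  have hre := Complex.reCLM.intervalIntegral_comp_comm
    ((k3F_cont Y z).intervalIntegrable (μ := volume) (-θ0) θ0)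
  simp only [Complex.reCLM_apply] at hre
  rw [← hre]
  have hcont : Continuous fun θ => (k3F Y z θ).re := Complex.continuous_re.comp (k3F_cont Y z)
  have hpos : ∀ θ, |θ| ≤ θ0 → 0 ≤ (k3F Y z θ).re := by
    intro θ hθ
    refine le_trans ?_ (k3_re_nonneg h1 hz hθ)
    have h4 : 0 < wk Y θ * Real.exp (z.im * θ / 2) := mul_pos (Real.exp_pos _) (Real.exp_pos _)
    positivity
  have h2 : ∫ θ in a..b, (k3F Y z θ).re ≤ ∫ θ in (-θ0)..θ0, (k3F Y z θ).re := by
    have e1 := intervalIntegral.integral_add_adjacent_intervals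
      (hcont.intervalIntegrable (μ := volume) (-θ0) a) (hcont.intervalIntegrable (μ := volume) a b)
    have e2 := intervalIntegral.integral_add_adjacent_intervals
      (hcont.intervalIntegrable (μ := volume) (-θ0) b)
      (hcont.intervalIntegrable (μ := volume) b θ0)
    have e3 : 0 ≤ ∫ θ in (-θ0)..a, (k3F Y z θ).re := by
      refine intervalIntegral.integral_nonneg ha fun θ hθ => hpos θ ?_
      rw [abs_le]
      exact ⟨hθ.1, by linarith [hθ.2]⟩
    have e4 : 0 ≤ ∫ θ in b..θ0, (k3F Y z θ).re := by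
      refine intervalIntegral.integral_nonneg hb fun θ hθ => hpos θ ?_
      rw [abs_le]
      exact ⟨by linarith [hθ.1], hθ.2⟩
    linarith
  refine le_trans ?_ h2
  have h3 : ∫ _θ in a..b, (7 / 10 * Real.exp L) ≤ ∫ θ in a..b, (k3F Y z θ).re := by
    refine intervalIntegral.integral_mono_on hab (continuous_const.intervalIntegrable _ _)
      (hcont.intervalIntegrable _ _) fun θ hθ => ?_
    refine le_trans ?_ (k3_re_nonneg h1 hz (abs_le.2 ⟨by linarith [hθ.1], by linarith [hθ.2]⟩))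
    unfold wk
    rw [← Real.exp_add]
    have := Real.exp_le_exp.2 (hL θ hθ)
    linarith
  rw [intervalIntegral.integral_const, smul_eq_mul] at h3
  linarith

theorem Mk_ne {Y θ0 : ℝ} (h0 : 0 < θ0) (h1 : θ0 ≤ Real.pi / 2) {z : ℂ} (hz : |z.re| ≤ 1) :
    Mk Y θ0 z ≠ 0 := by
  set L : ℝ := -(2 * Real.pi * |Y| + |z.im| * θ0) with hLdef
  have h2 := k3_low_aux (Y := Y) h1 hz (a := -θ0) (b := θ0) (L := L) le_rfl (by linarith) le_rfl
    (by
      intro θ hθ
      have hθ' : |θ| ≤ θ0 := abs_le.2 hθ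
      have h3 : -(2 * Real.pi * |Y|) ≤ 2 * Real.pi * Y * Real.cos θ := by
        have h4 : -|Y| ≤ Y * Real.cos θ := by
          refine le_trans (neg_le_neg ?_) (neg_abs_le _)
          rw [abs_mul]
          exact mul_le_of_le_one_right (abs_nonneg _) (Real.abs_cos_le_one θ)
        have h5 := mul_le_mul_of_nonneg_left h4 (by positivity : (0 : ℝ) ≤ 2 * Real.pi)
        linarith
      have h4 : -(|z.im| * θ0) ≤ z.im * θ / 2 := by
        have h5 : |z.im * θ| ≤ |z.im| * θ0 := by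
          rw [abs_mul]
          exact mul_le_mul_of_nonneg_left hθ' (abs_nonneg _)
        have h6 := neg_abs_le (z.im * θ)
        have h7 := abs_nonneg (z.im * θ)
        linarith
      rw [hLdef]
      linarith)
  intro h
  rw [h, norm_zero] at h2
  have h3 : 0 < 7 / 10 * (θ0 - -θ0) * Real.exp L := by
    have := Real.exp_pos L
    have : 0 < θ0 - -θ0 := by linarith
    positivity
  linarith

/-- a positive constant is absorbed by an exponential -/
theorem k3_absorb {η a : ℝ} (hη : 0 < η) (ha : 0 < a) : ∃ Y0 : ℝ, 1 ≤ Y0 ∧ ∀ Y : ℝ, Y0 ≤ Y →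
    1 ≤ 7 / 10 * η * Real.exp (a * Y) := by
  refine ⟨max 1 (1 / (7 / 10 * η * a)), le_max_left _ _, fun Y hY => ?_⟩
  have h1 : 1 / (7 / 10 * η * a) ≤ Y := (le_max_right _ _).trans hY
  rw [div_le_iff₀ (by positivity)] at h1
  have h2 := Real.add_one_le_exp (a * Y)
  have h3 : 0 < 7 / 10 * η := by positivity
  nlinarith

theorem Mk_low {c : ℝ} (hc0 : 0 < c) (hc : c < 4 * Real.pi) : ∃ δ θ1 : ℝ, 0 < δ ∧ 0 < θ1 ∧ θ1 < Real.pi / 2 ∧
    ∀ θ0 : ℝ, θ1 ≤ θ0 → θ0 ≤ Real.pi / 2 → ∃ Y0 : ℝ, 1 ≤ Y0 ∧ ∀ Y : ℝ, Y0 ≤ Y → ∀ z : ℂ, |z.re| ≤ 1 →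
      |z.im| ≤ c * Y → Real.exp (δ * Y + Real.pi * |z.im| / 4) ≤ ‖Mk Y θ0 z‖ := by
  have hpi := Real.pi_gt_three
  set φ : ℝ := 1 - c / (4 * Real.pi) with hφ
  have hw0 : 0 < c / (4 * Real.pi) := by positivity
  have hw1 : c / (4 * Real.pi) < 1 := by rwa [div_lt_one (by positivity)]
  have hφ0 : 0 < φ := by rw [hφ]; linarith
  have hφ1 : φ < 1 := by rw [hφ]; linarith
  set η : ℝ := φ ^ 2 / 4 with hη
  have hη0 : 0 < η := by positivity
  have hη1 : η < 1 / 4 := by rw [hη]; nlinarith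
  set θ1 : ℝ := Real.pi / 2 - φ with hθ1
  have hceq : c = 4 * Real.pi * (1 - φ) := by
    rw [hφ]
    field_simp
    ring
  have hsin : φ - φ ^ 3 / 4 < Real.sin φ := by
    have h2 := Real.sin_gt_sub_cube hφ0
    have h3 : 0 < φ ^ 3 := by positivity
    linarith
  have hmain : φ ^ 2 / 2 ≤ Real.sin φ - (1 - φ) * (φ + η) := by
    rw [hη]
    nlinarith [mul_pos hφ0 hφ0, mul_pos (mul_pos hφ0 hφ0) hφ0, mul_nonneg (mul_pos hφ0 hφ0).le
      (by linarith : (0 : ℝ) ≤ 1 - φ)]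
  have hcos1 : Real.cos θ1 = Real.sin φ := by
    rw [hθ1, Real.cos_pi_div_two_sub]
  refine ⟨φ ^ 2, θ1, by positivity, by rw [hθ1]; linarith, by rw [hθ1]; linarith, ?_⟩
  intro θ0 h01 h0
  obtain ⟨Y0, hY0, hY⟩ := k3_absorb hη0 (show 0 < φ ^ 2 by positivity)
  refine ⟨Y0, hY0, fun Y hYY z hz ht => ?_⟩
  have hYpos : 0 < Y := by linarith
  have habs := hY Y hYY
  -- the exponent
  have hexp : ∀ s : ℝ, θ1 - η ≤ s → s ≤ θ1 →
      2 * φ ^ 2 * Y + Real.pi * |z.im| / 4 ≤ 2 * Real.pi * Y * Real.cos s + |z.im| * s / 2 := by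
    intro s hs1 hs2
    have hs0 : 0 ≤ s := by rw [hθ1] at hs1; linarith
    have h2 : Real.sin φ ≤ Real.cos s := by
      rw [← hcos1]
      exact Real.cos_le_cos_of_nonneg_of_le_pi hs0 (by rw [hθ1]; linarith) hs2
    have h3 : 2 * Real.pi * Y * Real.sin φ ≤ 2 * Real.pi * Y * Real.cos s :=
      mul_le_mul_of_nonneg_left h2 (by positivity)
    have h4 : |z.im| * (Real.pi / 2 - (φ + η)) ≤ |z.im| * s :=
      mul_le_mul_of_nonneg_left (by rw [hθ1] at hs1; linarith) (abs_nonneg _)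
    have h5 : |z.im| * (φ + η) ≤ c * Y * (φ + η) :=
      mul_le_mul_of_nonneg_right ht (by positivity)
    have h6 : 2 * Real.pi * Y * (φ ^ 2 / 2) ≤
        2 * Real.pi * Y * (Real.sin φ - (1 - φ) * (φ + η)) :=
      mul_le_mul_of_nonneg_left hmain (by positivity)
    have h7 : c * Y * (φ + η) = 4 * Real.pi * Y * ((1 - φ) * (φ + η)) := by
      rw [hceq]
      ring
    have h8 : 2 * φ ^ 2 * Y ≤ 2 * Real.pi * Y * (φ ^ 2 / 2) := by
      have h9 : 0 < φ ^ 2 * Y := by positivity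
      nlinarith
    nlinarith
  have hfin : Real.exp (φ ^ 2 * Y + Real.pi * |z.im| / 4) ≤
      7 / 10 * η * Real.exp (2 * φ ^ 2 * Y + Real.pi * |z.im| / 4) := by
    have h2 : 2 * φ ^ 2 * Y + Real.pi * |z.im| / 4 =
        φ ^ 2 * Y + (φ ^ 2 * Y + Real.pi * |z.im| / 4) := by ring
    rw [h2, Real.exp_add (φ ^ 2 * Y) (φ ^ 2 * Y + Real.pi * |z.im| / 4), ← mul_assoc]
    exact le_mul_of_one_le_left (Real.exp_pos _).le habs
  refine hfin.trans ?_
  rcases le_total 0 z.im with hs | hs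
  · have h2 := k3_low_aux (Y := Y) h0 hz (a := θ1 - η) (b := θ1)
      (L := 2 * φ ^ 2 * Y + Real.pi * |z.im| / 4) (by rw [hθ1]; linarith) (by linarith) h01 (by
        intro θ hθ
        have h3 := hexp θ hθ.1 hθ.2
        rwa [abs_of_nonneg hs] at h3 ⊢)
    have h3 : θ1 - (θ1 - η) = η := by ring
    rwa [h3] at h2
  · have h2 := k3_low_aux (Y := Y) h0 hz (a := -θ1) (b := -θ1 + η)
      (L := 2 * φ ^ 2 * Y + Real.pi * |z.im| / 4) (by linarith) (by linarith)
      (by rw [hθ1]; linarith) (by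
        intro θ hθ
        have h3 := hexp (-θ) (by linarith [hθ.2]) (by linarith [hθ.1])
        rw [Real.cos_neg, abs_of_nonpos hs] at h3
        rw [abs_of_nonpos hs]
        have h4 : -z.im * -θ / 2 = z.im * θ / 2 := by ring
        linarith)
    have h3 : -θ1 + η - -θ1 = η := by ring
    rwa [h3] at h2

theorem Mk_zero_low {ε : ℝ} (hε : 0 < ε) {θ0 : ℝ} (h0 : 0 < θ0) (h1 : θ0 ≤ Real.pi / 2) :
    ∃ Y0 : ℝ, 1 ≤ Y0 ∧ ∀ Y : ℝ, Y0 ≤ Y → Real.exp ((2 * Real.pi - ε) * Y) ≤ ‖Mk Y θ0 0‖ := by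
  have hpi := Real.pi_pos
  set η : ℝ := min θ0 (min 1 (ε / (2 * Real.pi))) with hη
  have hη0 : 0 < η := lt_min h0 (lt_min one_pos (by positivity))
  have hη1 : η ≤ 1 := (min_le_right _ _).trans (min_le_left _ _)
  have hη2 : η ≤ ε / (2 * Real.pi) := (min_le_right _ _).trans (min_le_right _ _)
  have hηθ : η ≤ θ0 := min_le_left _ _
  obtain ⟨Y0, hY0, hY⟩ := k3_absorb hη0 (show 0 < ε / 2 by positivity)
  refine ⟨Y0, hY0, fun Y hYY => ?_⟩
  have hYpos : 0 < Y := by linarith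
  have h2 := k3_low_aux (Y := Y) h1 (z := 0) (by simp) (a := 0) (b := η)
    (L := (2 * Real.pi - ε / 2) * Y) (by linarith) hη0.le hηθ (by
      intro θ hθ
      have h3 := Real.one_sub_sq_div_two_le_cos (x := θ)
      have h4 : θ ^ 2 ≤ ε / (2 * Real.pi) := by
        have h5 : θ ^ 2 ≤ η * 1 := by
          rw [sq]
          exact mul_le_mul hθ.2 (hθ.2.trans hη1) hθ.1 hη0.le
        linarith
      have h5 : 1 - ε / (4 * Real.pi) ≤ Real.cos θ := by
        have h6 : ε / (4 * Real.pi) = ε / (2 * Real.pi) / 2 := by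
          field_simp
          ring
        linarith
      have h6 := mul_le_mul_of_nonneg_left h5 (by positivity : (0 : ℝ) ≤ 2 * Real.pi * Y)
      have h7 : 2 * Real.pi * Y * (1 - ε / (4 * Real.pi)) = (2 * Real.pi - ε / 2) * Y := by
        field_simp
        ring
      rw [h7] at h6
      simpa using h6)
  refine le_trans ?_ h2
  have h3 : (2 * Real.pi - ε / 2) * Y = ε / 2 * Y + (2 * Real.pi - ε) * Y := by ring
  rw [h3, Real.exp_add, sub_zero, ← mul_assoc]
  exact le_mul_of_one_le_left (Real.exp_pos _).le (hY Y hYY)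

end Pool.Agent.Helper76.EX
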